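import Mathlib

/-!
# Integer valued quasi-Cayley metrics with a bounded metric-functional

On every infinite finitely generated group there is an integer valued, left-invariant, proper
metric, quasi-isometric to every Cayley metric, which has the zero function as a
metric-functional.
-/

open Filter Topology

namespace Pool.Agent.Results.MP_25f285_al.BoundedFunctional

universe u

section Defs

variable {G : Type u} [Group G]

/-- The word length of `g` with respect to `S`: the least length of a word in `S`
representing `g`. -/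
noncomputable def wordLength (S : Set G) (g : G) : ℕ :=
  sInf {n : ℕ | ∃ l : List G, l.length = n ∧ (∀ s ∈ l, s ∈ S) ∧ l.prod = g}

/-- The Cayley metric `d_S(x,y)`: the least length of a word in `S` representing `x⁻¹ y`. -/
noncomputable def cayleyDist (S : Set G) (x y : G) : ℝ := (wordLength S (x⁻¹ * y) : ℝ)

/-- `S` is a finite symmetric generating set of `G`. -/
def IsFiniteSymmetricGenerating (S : Set G) : Prop :=
  S.Finite ∧ (∀ s ∈ S, s⁻¹ ∈ S) ∧ Subgroup.closure S = ⊤

/-- `d` is a metric on `G` which is left-invariant, proper (all balls are finite), integer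
valued and quasi-isometric (through the identity map) to every Cayley metric of `G`. -/
structure IsIntegerQuasiCayleyMetric (d : G → G → ℝ) : Prop where
  nonneg : ∀ x y, 0 ≤ d x y
  eq_zero_iff : ∀ x y, d x y = 0 ↔ x = y
  symm : ∀ x y, d x y = d y x
  triangle : ∀ x y z, d x z ≤ d x y + d y z
  left_invariant : ∀ g x y, d (g * x) (g * y) = d x y
  proper : ∀ (x : G) (r : ℝ), {y : G | d x y ≤ r}.Finite
  integer_valued : ∀ x y, ∃ k : ℤ, d x y = (k : ℝ)
  quasi_isometric : ∀ S : Set G, IsFiniteSymmetricGenerating S →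
    ∃ C : ℝ, 1 ≤ C ∧ ∀ x y,
      C⁻¹ * cayleyDist S x y - C ≤ d x y ∧ d x y ≤ C * cayleyDist S x y + C

/-- The boundary `∂(G,d)`: all pointwise limits of `y ↦ d(x_n, y) - d(x_n, e)` along sequences
`(x_n)` that eventually leave every finite subset of `G`. Its elements are the
metric-functionals. -/
def boundary (d : G → G → ℝ) : Set (G → ℝ) :=
  {f | ∃ x : ℕ → G, (∀ F : Set G, F.Finite → ∀ᶠ n in atTop, x n ∉ F) ∧
    ∀ y, Tendsto (fun n => d (x n) y - d (x n) 1) atTop (𝓝 (f y))}

end Defs

/-! ### A subadditive function with long plateaus -/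

/-- Auxiliary truncated linear functions. -/
def trm (k n : ℕ) : ℕ := min (n + (n + (2 ^ k - 1)) / 2 ^ k) (16 * 4 ^ k + 12 * 2 ^ k)

/-- The supremum of the auxiliary truncated linear functions. -/
noncomputable def plateau (n : ℕ) : ℕ := ⨆ k, trm k n

lemma trm_le (k n : ℕ) : trm k n ≤ 2 * n := by
  have h : (n + (2 ^ k - 1)) / 2 ^ k ≤ n := by
    have hk : 1 ≤ 2 ^ k := Nat.one_le_two_pow
    apply Nat.le_of_lt_succ
    rw [Nat.div_lt_iff_lt_mul (by positivity)]
    obtain ⟨c, hc⟩ := Nat.exists_eq_add_of_le hk
    rw [hc]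
    have : 1 + c - 1 = c := by omega
    rw [this]
    nlinarith [Nat.zero_le (n * c)]
  unfold trm
  have := min_le_left (n + (n + (2 ^ k - 1)) / 2 ^ k) (16 * 4 ^ k + 12 * 2 ^ k)
  omega

lemma trm_bdd (n : ℕ) : BddAbove (Set.range fun k => trm k n) :=
  ⟨2 * n, by rintro _ ⟨k, rfl⟩; exact trm_le k n⟩

lemma trm_le_plateau (k n : ℕ) : trm k n ≤ plateau n := le_ciSup (trm_bdd n) k

lemma plateau_le {n c : ℕ} (h : ∀ k, trm k n ≤ c) : plateau n ≤ c := ciSup_le h

lemma plateau_le_two_mul (n : ℕ) : plateau n ≤ 2 * n := plateau_le fun k => trm_le k n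

lemma trm_mono (k : ℕ) {m n : ℕ} (h : m ≤ n) : trm k m ≤ trm k n := by
  unfold trm
  apply min_le_min _ le_rfl
  apply Nat.add_le_add h
  apply Nat.div_le_div_right
  omega

lemma plateau_mono {m n : ℕ} (h : m ≤ n) : plateau m ≤ plateau n :=
  plateau_le fun k => (trm_mono k h).trans (trm_le_plateau k n)

lemma le_plateau (n : ℕ) : n ≤ plateau n := by
  refine le_trans ?_ (trm_le_plateau n n)
  unfold trm
  apply le_min
  · exact Nat.le_add_right _ _
  · have : n < 4 ^ n := Nat.lt_pow_self (by norm_num)
    omega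

lemma trm_add (k m n : ℕ) : trm k (m + n) ≤ trm k m + trm k n := by
  have hk : 1 ≤ 2 ^ k := Nat.one_le_two_pow
  have h : (m + n + (2 ^ k - 1)) / 2 ^ k ≤
      (m + (2 ^ k - 1)) / 2 ^ k + (n + (2 ^ k - 1)) / 2 ^ k := by
    apply Nat.le_of_lt_succ
    rw [Nat.div_lt_iff_lt_mul (by positivity)]
    have h1 := Nat.lt_div_mul_add (a := m + (2 ^ k - 1)) (b := 2 ^ k) (by positivity)
    have h2 := Nat.lt_div_mul_add (a := n + (2 ^ k - 1)) (b := 2 ^ k) (by positivity)
    rw [Nat.succ_mul, Nat.add_mul]
    omega
  unfold trm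
  generalize (m + n + (2 ^ k - 1)) / 2 ^ k = a at h ⊢
  generalize (m + (2 ^ k - 1)) / 2 ^ k = b at h ⊢
  generalize (n + (2 ^ k - 1)) / 2 ^ k = c at h ⊢
  omega

lemma plateau_add (m n : ℕ) : plateau (m + n) ≤ plateau m + plateau n :=
  plateau_le fun k => (trm_add k m n).trans
    (Nat.add_le_add (trm_le_plateau k m) (trm_le_plateau k n))

lemma plateau_eq (k n : ℕ) (h1 : 16 * 4 ^ k ≤ n + k) (h2 : n ≤ 16 * 4 ^ k + k) :
    plateau n = 16 * 4 ^ k + 12 * 2 ^ k := by
  have hk2 : k < 2 ^ k := Nat.lt_two_pow_self
  have h4 : 4 ^ k = 2 ^ k * 2 ^ k := by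
    rw [← Nat.mul_pow]
  apply le_antisymm
  · apply plateau_le
    intro j
    rcases le_or_gt j k with hj | hj
    · refine (min_le_right _ _).trans ?_
      have e1 : 4 ^ j ≤ 4 ^ k := Nat.pow_le_pow_right (by norm_num) hj
      have e2 : 2 ^ j ≤ 2 ^ k := Nat.pow_le_pow_right (by norm_num) hj
      omega
    · refine (min_le_left _ _).trans ?_
      have key : (n + (2 ^ j - 1)) / 2 ^ j ≤ 8 * 2 ^ k + 2 := by
        apply Nat.le_of_lt_succ
        rw [Nat.div_lt_iff_lt_mul (by positivity)]
        have e2 : 2 * 2 ^ k ≤ 2 ^ j := by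
          have : 2 ^ (k + 1) ≤ 2 ^ j := Nat.pow_le_pow_right (by norm_num) hj
          rw [pow_succ] at this
          omega
        have e3 : 8 * 2 ^ k * (2 * 2 ^ k) ≤ 8 * 2 ^ k * 2 ^ j := Nat.mul_le_mul_left _ e2
        have e4 : 8 * 2 ^ k * (2 * 2 ^ k) = 16 * 4 ^ k := by rw [h4]; ring
        have e5 : (8 * 2 ^ k + 2).succ * 2 ^ j = 8 * 2 ^ k * 2 ^ j + 3 * 2 ^ j := by
          rw [Nat.succ_eq_add_one]; ring
        rw [e5]
        omega
      omega
  · refine le_trans ?_ (trm_le_plateau k n)
    unfold trm
    apply le_min _ le_rfl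
    have key : 16 * 2 ^ k - 1 ≤ (n + (2 ^ k - 1)) / 2 ^ k := by
      rw [Nat.le_div_iff_mul_le (by positivity)]
      have e1 : (16 * 2 ^ k - 1) * 2 ^ k = 16 * 4 ^ k - 2 ^ k := by
        rw [Nat.sub_mul, h4]; ring_nf
      rw [e1]
      omega
    omega

/-! ### Word length -/

section Word

variable {G : Type u} [Group G] {S : Set G}

lemma word_nonempty (hS : IsFiniteSymmetricGenerating S) (g : G) :
    {n : ℕ | ∃ l : List G, l.length = n ∧ (∀ s ∈ l, s ∈ S) ∧ l.prod = g}.Nonempty := by
  have hg : g ∈ (Subgroup.closure S).toSubmonoid := by rw [hS.2.2]; trivial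
  rw [Subgroup.closure_toSubmonoid] at hg
  obtain ⟨l, hl, hp⟩ := Submonoid.exists_list_of_mem_closure hg
  refine ⟨l.length, l, rfl, ?_, hp⟩
  intro s hs
  rcases hl s hs with h | h
  · exact h
  · have := hS.2.1 _ h
    simpa using this

lemma exists_word (hS : IsFiniteSymmetricGenerating S) (g : G) :
    ∃ l : List G, l.length = wordLength S g ∧ (∀ s ∈ l, s ∈ S) ∧ l.prod = g :=
  Nat.sInf_mem (word_nonempty hS g)

lemma wordLength_le {l : List G} (hl : ∀ s ∈ l, s ∈ S) : wordLength S l.prod ≤ l.length :=
  Nat.sInf_le ⟨l, rfl, hl, rfl⟩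

lemma wordLength_one : wordLength S (1 : G) = 0 := by
  have := wordLength_le (S := S) (l := []) (by simp)
  simpa using this

lemma wordLength_eq_zero (hS : IsFiniteSymmetricGenerating S) {g : G}
    (h : wordLength S g = 0) : g = 1 := by
  obtain ⟨l, hl, _, hp⟩ := exists_word hS g
  rw [h] at hl
  rw [List.length_eq_zero_iff] at hl
  rw [← hp, hl, List.prod_nil]

lemma wordLength_mul (hS : IsFiniteSymmetricGenerating S) (g h : G) :
    wordLength S (g * h) ≤ wordLength S g + wordLength S h := by
  obtain ⟨l, hl, hlS, hp⟩ := exists_word hS g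
  obtain ⟨l', hl', hlS', hp'⟩ := exists_word hS h
  have := wordLength_le (S := S) (l := l ++ l') (by
    intro s hs
    rcases List.mem_append.1 hs with h | h
    · exact hlS s h
    · exact hlS' s h)
  rw [List.prod_append, hp, hp', List.length_append, hl, hl'] at this
  exact this

lemma wordLength_inv_le (hS : IsFiniteSymmetricGenerating S) (g : G) :
    wordLength S g⁻¹ ≤ wordLength S g := by
  obtain ⟨l, hl, hlS, hp⟩ := exists_word hS g
  have := wordLength_le (S := S) (l := (l.map fun x => x⁻¹).reverse) (by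
    intro s hs
    rw [List.mem_reverse, List.mem_map] at hs
    obtain ⟨a, ha, rfl⟩ := hs
    exact hS.2.1 _ (hlS a ha))
  rw [← List.prod_inv_reverse, hp, List.length_reverse, List.length_map, hl] at this
  exact this

lemma wordLength_inv (hS : IsFiniteSymmetricGenerating S) (g : G) :
    wordLength S g⁻¹ = wordLength S g := by
  apply le_antisymm (wordLength_inv_le hS g)
  have := wordLength_inv_le hS g⁻¹
  rwa [inv_inv] at this

lemma ball_finite (hS : IsFiniteSymmetricGenerating S) (n : ℕ) :
    {g : G | wordLength S g ≤ n}.Finite := by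
  induction n with
  | zero =>
    apply Set.Finite.subset (Set.finite_singleton (1 : G))
    intro g hg
    exact wordLength_eq_zero hS (Nat.le_zero.1 hg)
  | succ n ih =>
    apply Set.Finite.subset (ih.union (Set.Finite.image2 (fun a b => a * b) hS.1 ih))
    intro g hg
    obtain ⟨l, hl, hlS, hp⟩ := exists_word hS g
    cases l with
    | nil =>
      left
      simp only [List.length_nil] at hl
      show wordLength S g ≤ n
      omega
    | cons a t =>
      right
      refine ⟨a, hlS a (by simp), t.prod, ?_, by simpa using hp⟩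
      have h1 := wordLength_le (S := S) (l := t) (fun s hs => hlS s (by simp [hs]))
      have h2 : wordLength S g ≤ n + 1 := hg
      simp only [List.length_cons] at hl
      show wordLength S t.prod ≤ n
      omega

/-- In an infinite group every natural number is the length of some element. -/
lemma exists_wordLength_eq [Infinite G] (hS : IsFiniteSymmetricGenerating S) (n : ℕ) :
    ∃ g : G, wordLength S g = n := by
  obtain ⟨g, hg⟩ : ∃ g : G, g ∉ {g : G | wordLength S g ≤ n} := (ball_finite hS n).exists_notMem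
  have hg' : n < wordLength S g := by
    by_contra h
    exact hg (not_lt.1 h)
  obtain ⟨l, hl, hlS, hp⟩ := exists_word hS g
  refine ⟨(l.take n).prod, ?_⟩
  have h1 : wordLength S (l.take n).prod ≤ n := by
    refine (wordLength_le (fun s hs => hlS s (List.mem_of_mem_take hs))).trans ?_
    rw [List.length_take]
    exact min_le_left _ _
  have h2 : wordLength S (l.drop n).prod ≤ wordLength S g - n := by
    refine (wordLength_le (fun s hs => hlS s (List.mem_of_mem_drop hs))).trans ?_
    rw [List.length_drop, hl]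
  have h3 : wordLength S g ≤ wordLength S (l.take n).prod + wordLength S (l.drop n).prod := by
    have := wordLength_mul hS (l.take n).prod (l.drop n).prod
    rwa [List.prod_take_mul_prod_drop, hp] at this
  omega

end Word

section Main

variable {G : Type u} [Group G]

lemma exists_generating [Group.FG G] : ∃ S : Set G, IsFiniteSymmetricGenerating S := by
  obtain ⟨T, hT, hfin⟩ := Group.fg_iff.1 (inferInstance : Group.FG G)
  refine ⟨T ∪ T⁻¹, hfin.union hfin.inv, ?_, ?_⟩
  · intro s hs
    rcases hs with h | h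
    · right; simpa using h
    · left; simpa using h
  · rw [eq_top_iff, ← hT]
    exact Subgroup.closure_mono Set.subset_union_left

lemma wordLength_le_mul {S T : Set G} (hS : IsFiniteSymmetricGenerating S)
    (hT : IsFiniteSymmetricGenerating T) :
    ∃ C : ℕ, 1 ≤ C ∧ ∀ g : G, wordLength T g ≤ C * wordLength S g := by
  obtain ⟨C, hC⟩ : ∃ C : ℕ, ∀ s ∈ S, wordLength T s ≤ C := by
    obtain ⟨C, hC⟩ := (hS.1.image (wordLength T)).bddAbove
    exact ⟨C, fun s hs => hC ⟨s, hs, rfl⟩⟩
  refine ⟨C + 1, by omega, fun g => ?_⟩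
  obtain ⟨l, hl, hlS, hp⟩ := exists_word hS g
  have key : ∀ l : List G, (∀ s ∈ l, s ∈ S) → wordLength T l.prod ≤ C * l.length := by
    intro l
    induction l with
    | nil => intro _; simp [wordLength_one]
    | cons a t ih =>
      intro h
      rw [List.prod_cons, List.length_cons]
      have h1 := wordLength_mul hT a t.prod
      have h2 := ih (fun s hs => h s (by simp [hs]))
      have h3 := hC a (h a (by simp))
      rw [Nat.mul_succ]
      omega
  have := key l hlS
  rw [hp, hl] at this
  refine this.trans (Nat.mul_le_mul_right _ (by omega))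

/-- The metric: `plateau` applied to the word metric. -/
noncomputable def pdist (S : Set G) (x y : G) : ℝ := (plateau (wordLength S (x⁻¹ * y)) : ℝ)

lemma pdist_admissible {S : Set G} (hS : IsFiniteSymmetricGenerating S) :
    IsIntegerQuasiCayleyMetric (pdist S) where
  nonneg x y := by unfold pdist; positivity
  eq_zero_iff x y := by
    unfold pdist
    constructor
    · intro h
      have h0 : plateau (wordLength S (x⁻¹ * y)) = 0 := by exact_mod_cast h
      have h1 := le_plateau (wordLength S (x⁻¹ * y))
      have h2 := wordLength_eq_zero hS (g := x⁻¹ * y) (by omega)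
      rw [inv_mul_eq_one] at h2
      exact h2
    · rintro rfl
      rw [inv_mul_cancel, wordLength_one]
      have := plateau_le_two_mul 0
      have : plateau 0 = 0 := by omega
      rw [this]; simp
  symm x y := by
    unfold pdist
    have : y⁻¹ * x = (x⁻¹ * y)⁻¹ := by group
    rw [this, wordLength_inv hS]
  triangle x y z := by
    unfold pdist
    have h1 : x⁻¹ * z = (x⁻¹ * y) * (y⁻¹ * z) := by group
    have h2 := wordLength_mul hS (x⁻¹ * y) (y⁻¹ * z)
    rw [← h1] at h2
    have h3 := (plateau_mono h2).trans (plateau_add _ _)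
    exact_mod_cast h3
  left_invariant g x y := by
    unfold pdist
    have : (g * x)⁻¹ * (g * y) = x⁻¹ * y := by group
    rw [this]
  proper x r := by
    obtain ⟨n, hn⟩ := exists_nat_ge r
    have hfin : ((fun g => x * g) '' {g : G | wordLength S g ≤ n}).Finite :=
      (ball_finite hS n).image _
    apply hfin.subset
    intro y hy
    refine ⟨x⁻¹ * y, ?_, by group⟩
    have h1 : (plateau (wordLength S (x⁻¹ * y)) : ℝ) ≤ n := le_trans hy hn
    have h2 : plateau (wordLength S (x⁻¹ * y)) ≤ n := by exact_mod_cast h1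
    exact (le_plateau _).trans h2
  integer_valued x y := ⟨(plateau (wordLength S (x⁻¹ * y)) : ℤ), by unfold pdist; push_cast; rfl⟩
  quasi_isometric T hT := by
    obtain ⟨C, hC1, hC⟩ := wordLength_le_mul hS hT
    obtain ⟨C', hC1', hC'⟩ := wordLength_le_mul hT hS
    have hK1 : (1 : ℝ) ≤ (C + 2 * C' : ℕ) := by
      have : 1 ≤ C + 2 * C' := by omega
      exact_mod_cast this
    refine ⟨(C + 2 * C' : ℕ), hK1, fun x y => ?_⟩
    unfold pdist cayleyDist
    set g := x⁻¹ * y
    have hK0 : (0 : ℝ) < (C + 2 * C' : ℕ) := by linarith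
    constructor
    · have h1 : wordLength T g ≤ (C + 2 * C') * plateau (wordLength S g) :=
        (hC g).trans (Nat.mul_le_mul (by omega) (le_plateau _))
      have h2 : (wordLength T g : ℝ) ≤ (C + 2 * C' : ℕ) * (plateau (wordLength S g) : ℝ) := by
        exact_mod_cast h1
      have h3 : ((C + 2 * C' : ℕ) : ℝ)⁻¹ * (wordLength T g : ℝ) ≤ plateau (wordLength S g) := by
        rw [inv_mul_le_iff₀ hK0]
        exact h2
      linarith
    · have h1 : plateau (wordLength S g) ≤ (C + 2 * C') * wordLength T g := by
        refine (plateau_le_two_mul _).trans ?_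
        have := hC' g
        calc 2 * wordLength S g ≤ 2 * (C' * wordLength T g) := by omega
          _ = (2 * C') * wordLength T g := by ring
          _ ≤ (C + 2 * C') * wordLength T g := Nat.mul_le_mul_right _ (by omega)
      have h2 : (plateau (wordLength S g) : ℝ) ≤ (C + 2 * C' : ℕ) * (wordLength T g : ℝ) := by
        exact_mod_cast h1
      linarith

lemma zero_mem_boundary [Infinite G] {S : Set G} (hS : IsFiniteSymmetricGenerating S) :
    (fun _ => (0 : ℝ)) ∈ boundary (pdist S) := by
  choose x hx using fun k : ℕ => exists_wordLength_eq (G := G) hS (16 * 4 ^ k)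
  refine ⟨x, ?_, ?_⟩
  · intro F hF
    obtain ⟨B, hB⟩ := (hF.image (wordLength S)).bddAbove
    filter_upwards [eventually_gt_atTop B] with n hn hmem
    have h1 : wordLength S (x n) ≤ B := hB ⟨x n, hmem, rfl⟩
    rw [hx n] at h1
    have : n < 4 ^ n := Nat.lt_pow_self (by norm_num)
    omega
  · intro y
    apply tendsto_const_nhds.congr'
    filter_upwards [eventually_ge_atTop (wordLength S y)] with k hk
    have h1 : wordLength S ((x k)⁻¹ * y) ≤ 16 * 4 ^ k + k := by
      have := wordLength_mul hS (x k)⁻¹ y
      rw [wordLength_inv hS, hx k] at this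
      omega
    have h2 : 16 * 4 ^ k ≤ wordLength S ((x k)⁻¹ * y) + k := by
      have h3 : (x k)⁻¹ = ((x k)⁻¹ * y) * y⁻¹ := by group
      have h4 := wordLength_mul hS ((x k)⁻¹ * y) y⁻¹
      rw [← h3, wordLength_inv hS, wordLength_inv hS, hx k] at h4
      omega
    have h5 : wordLength S ((x k)⁻¹ * 1) = 16 * 4 ^ k := by
      rw [mul_one, wordLength_inv hS, hx k]
    unfold pdist
    rw [plateau_eq k _ h2 h1, h5, plateau_eq k (16 * 4 ^ k) (by omega) (by omega)]
    simp

end Main

/-- On every infinite finitely generated group `G` there is an integer valued, left-invariant,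
proper metric `d`, quasi-isometric to every Cayley metric of `G`, such that the (bounded) zero
function belongs to `∂(G,d)`. In particular `d` is not a Banach metric. -/
theorem result (G : Type u) [Group G] [Group.FG G] [Infinite G] :
    ∃ d : G → G → ℝ, IsIntegerQuasiCayleyMetric d ∧ (fun _ => (0 : ℝ)) ∈ boundary d := by
  obtain ⟨S, hS⟩ := exists_generating (G := G)
  exact ⟨pdist S, pdist_admissible hS, zero_mem_boundary hS⟩

end Pool.Agent.Results.MP_25f285_al.BoundedFunctional
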